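import Mathlib

/-!
# No dense sigma-compact subgroup of the real line is plastic
-/

namespace Pool.Agent.Results.MP_fc2771_gt.NoSigmaCompact

open MeasureTheory Set Filter Topology

/-- A metric space is plastic if every non-expansive bijection of it onto itself is an isometry. -/
def Plastic (X : Type) [MetricSpace X] : Prop :=
  ∀ f : X → X, Function.Bijective f → (∀ x y, dist (f x) (f y) ≤ dist x y) →
    ∀ x y, dist (f x) (f y) = dist x y

/-- A metric space is strictly convex if for all `x`, `y` and all `a, b > 0` with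
`a + b = d (x, y)` there is exactly one point `z` with `d (x, z) = a` and `d (z, y) = b`. -/
def StrictlyConvexSpace (X : Type) [MetricSpace X] : Prop :=
  ∀ (x y : X) (a b : ℝ), 0 < a → 0 < b → a + b = dist x y → ∃! z, dist x z = a ∧ dist z y = b

/-- The relation between two points of the graph of the staircase. -/
def R (κ : ℝ) (z w : ℝ × ℝ) : Prop := z.1 < w.1 ∧ z.2 ≤ w.2 ∧ w.2 - z.2 < κ * (w.1 - z.1)

lemma R.trans {κ : ℝ} {a b c : ℝ × ℝ} (h : R κ a b) (h' : R κ b c) : R κ a c := by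
  obtain ⟨h1, h2, h3⟩ := h
  obtain ⟨h4, h5, h6⟩ := h'
  exact ⟨h1.trans h4, h2.trans h5, by linarith⟩

/-- `Path κ H z L w`: the list `L` leads from `z` to `w`, each point is related to the next one,
and the second coordinates are in `H`. -/
inductive Path (κ : ℝ) (H : Set ℝ) : ℝ × ℝ → List (ℝ × ℝ) → ℝ × ℝ → Prop
  | nil (z : ℝ × ℝ) : z.2 ∈ H → Path κ H z [z] z
  | cons (z z' : ℝ × ℝ) (L : List (ℝ × ℝ)) (w : ℝ × ℝ) : z.2 ∈ H → R κ z z' →
      Path κ H z' L w → Path κ H z (z :: L) w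

variable {κ : ℝ} {H : Set ℝ}

lemma Path.left_mem {z w : ℝ × ℝ} {L : List (ℝ × ℝ)} (h : Path κ H z L w) : z ∈ L := by
  cases h <;> simp

lemma Path.right_mem {z w : ℝ × ℝ} {L : List (ℝ × ℝ)} (h : Path κ H z L w) : w ∈ L := by
  induction h with
  | nil z hz => simp
  | cons z z' L w hz hr h ih => exact List.mem_cons_of_mem _ ih

lemma Path.val {z w : ℝ × ℝ} {L : List (ℝ × ℝ)} (h : Path κ H z L w) : ∀ a ∈ L, a.2 ∈ H := by
  induction h with
  | nil z hz => intro a ha; rw [List.mem_singleton.1 ha]; exact hz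
  | cons z z' L w hz hr h ih =>
    intro a ha
    rcases List.mem_cons.1 ha with rfl | ha
    · exact hz
    · exact ih a ha

lemma Path.left_rel {z w : ℝ × ℝ} {L : List (ℝ × ℝ)} (h : Path κ H z L w) :
    ∀ a ∈ L, a = z ∨ R κ z a := by
  induction h with
  | nil z hz => intro a ha; left; exact List.mem_singleton.1 ha
  | cons z z' L w hz hr h ih =>
    intro a ha
    rcases List.mem_cons.1 ha with rfl | ha
    · left; rfl
    · right
      rcases ih a ha with rfl | h'
      · exact hr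
      · exact hr.trans h'

lemma Path.right_rel {z w : ℝ × ℝ} {L : List (ℝ × ℝ)} (h : Path κ H z L w) :
    ∀ a ∈ L, a = w ∨ R κ a w := by
  induction h with
  | nil z hz => intro a ha; left; exact List.mem_singleton.1 ha
  | cons z z' L w hz hr h ih =>
    intro a ha
    rcases List.mem_cons.1 ha with rfl | ha
    · right
      rcases ih z' h.left_mem with rfl | h'
      · exact hr
      · exact hr.trans h'
    · exact ih a ha

lemma Path.total {z w : ℝ × ℝ} {L : List (ℝ × ℝ)} (h : Path κ H z L w) :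
    ∀ a ∈ L, ∀ b ∈ L, a = b ∨ R κ a b ∨ R κ b a := by
  induction h with
  | nil z hz =>
    intro a ha b hb
    left
    rw [List.mem_singleton.1 ha, List.mem_singleton.1 hb]
  | cons z z' L w hz hr h ih =>
    have key : ∀ b ∈ L, R κ z b := by
      intro b hb
      rcases h.left_rel b hb with rfl | h'
      · exact hr
      · exact hr.trans h'
    intro a ha b hb
    rcases List.mem_cons.1 ha with ha1 | ha1
    · rcases List.mem_cons.1 hb with hb1 | hb1
      · left; rw [ha1, hb1]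
      · right; left; rw [ha1]; exact key b hb1
    · rcases List.mem_cons.1 hb with hb1 | hb1
      · right; right; rw [hb1]; exact key a ha1
      · exact ih a ha1 b hb1

lemma Path.append {z w v : ℝ × ℝ} {L M : List (ℝ × ℝ)} (h : Path κ H z L w)
    (h' : Path κ H w M v) : ∃ N, Path κ H z N v ∧ (∀ a ∈ L, a ∈ N) ∧ (∀ a ∈ M, a ∈ N) := by
  induction h with
  | nil z hz =>
    refine ⟨M, h', fun a ha => ?_, fun a ha => ha⟩
    rw [List.mem_singleton.1 ha]
    exact h'.left_mem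
  | cons z z' L w hz hr h ih =>
    obtain ⟨N, h1, h2, h3⟩ := ih h'
    refine ⟨z :: N, Path.cons z z' N v hz hr h1, fun a ha => ?_, fun a ha => ?_⟩
    · rcases List.mem_cons.1 ha with rfl | ha
      · simp
      · exact List.mem_cons_of_mem _ (h2 a ha)
    · exact List.mem_cons_of_mem _ (h3 a ha)

lemma Path.map {κ' : ℝ} (f : ℝ × ℝ → ℝ × ℝ) (hf : ∀ a, (f a).2 = a.2)
    (hR : ∀ a b, R κ a b → R κ' (f a) (f b)) {z w : ℝ × ℝ} {L : List (ℝ × ℝ)}
    (h : Path κ H z L w) : Path κ' H (f z) (L.map f) (f w) := by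
  induction h with
  | nil z hz => exact Path.nil _ (by rw [hf]; exact hz)
  | cons z z' L w hz hr h ih =>
    exact Path.cons _ (f z') _ _ (by rw [hf]; exact hz) (hR _ _ hr) ih

/-- The points of `K` between `a` and `b` lie between two points of `L` at the same height. -/
def Cov (K : Set ℝ) (a b : ℝ) (L : List (ℝ × ℝ)) : Prop :=
  ∀ x ∈ K, a ≤ x → x ≤ b → ∃ p q v, (p, v) ∈ L ∧ (q, v) ∈ L ∧ p ≤ x ∧ x ≤ q

/-- Filling a row of cells. -/
lemma cells (hd : Dense H) {ℓ : ℝ} (hℓ : 0 < ℓ) (hκ : 0 < κ) : ∀ (cs : List Bool) (x g h : ℝ),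
    g ∈ H → h ∈ H → g ≤ h → (h - g < κ * ℓ * (cs.count true : ℕ) ∨ g = h) →
    ∃ L, Path κ H (x, g) L (x + ℓ * (cs.length : ℕ), h) ∧
      ∀ i : ℕ, cs[i]? = some false →
        ∃ v, (x + ℓ * i, v) ∈ L ∧ (x + ℓ * (i + 1), v) ∈ L := by
  intro cs
  induction cs with
  | nil =>
    intro x g h hg hh hgh hc
    have : g = h := by
      rcases hc with hc | hc
      · simp at hc; linarith
      · exact hc
    subst this
    refine ⟨[(x, g)], ?_, ?_⟩
    · have := Path.nil (κ := κ) (H := H) (x, g) hg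
      simpa using this
    · intro i hi; simp at hi
  | cons c cs ih =>
    intro x g h hg hh hgh hc
    obtain ⟨g', hg', h1, h2, h3, h4, h5⟩ : ∃ g' ∈ H, g ≤ g' ∧ g' ≤ h ∧ g' - g < κ * ℓ ∧
        (h - g' < κ * ℓ * (cs.count true : ℕ) ∨ g' = h) ∧ (c = false → g' = g) := by
      have hkl : 0 < κ * ℓ := mul_pos hκ hℓ
      cases c with
      | false =>
        refine ⟨g, hg, le_refl _, hgh, by linarith, ?_, fun _ => rfl⟩
        simpa using hc
      | true =>
        rcases eq_or_lt_of_le hgh with rfl | hlt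
        · exact ⟨g, hg, le_refl _, le_refl _, by linarith, Or.inr rfl, by simp⟩
        · have hc' : h - g < κ * ℓ * ((cs.count true : ℕ) + 1) := by
            rcases hc with hc | hc
            · simpa using hc
            · exact absurd hc hlt.ne
          rcases Nat.eq_zero_or_pos (cs.count true) with h0 | h0
          · refine ⟨h, hh, hgh, le_refl _, ?_, Or.inr rfl, by simp⟩
            rw [h0] at hc'
            simpa using hc'
          · have hn : (1 : ℝ) ≤ (cs.count true : ℕ) := by exact_mod_cast h0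
            have hlt2 : max g (h - κ * ℓ * (cs.count true : ℕ)) < min h (g + κ * ℓ) := by
              rw [lt_min_iff, max_lt_iff, max_lt_iff]
              refine ⟨⟨hlt, ?_⟩, ⟨by linarith, by linarith⟩⟩
              have : 0 < κ * ℓ * (cs.count true : ℕ) := by positivity
              linarith
            obtain ⟨g', hg', hg1, hg2⟩ := hd.exists_between hlt2
            rw [max_lt_iff] at hg1
            rw [lt_min_iff] at hg2
            exact ⟨g', hg', hg1.1.le, hg2.1.le, by linarith, Or.inl (by linarith), by simp⟩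
    obtain ⟨L, hL, hcov⟩ := ih (x + ℓ) g' h hg' hh h2 h4
    refine ⟨(x, g) :: L, ?_, ?_⟩
    · refine Path.cons (x, g) (x + ℓ, g') L _ hg ⟨by simpa using hℓ, h1, ?_⟩ ?_
      · simpa using h3
      · have : x + ℓ + ℓ * (cs.length : ℕ) = x + ℓ * ((c :: cs).length : ℕ) := by
          simp; ring
        rwa [this] at hL
    · intro i hi
      cases i with
      | zero =>
        have hc0 : c = false := by simpa using hi
        refine ⟨g, by simp, ?_⟩
        have := hL.left_mem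
        rw [h5 hc0] at this
        simpa using Or.inr this
      | succ i =>
        have hi' : cs[i]? = some false := by simpa using hi
        obtain ⟨v, hv1, hv2⟩ := hcov i hi'
        refine ⟨v, List.mem_cons_of_mem _ ?_, List.mem_cons_of_mem _ ?_⟩
        · have : x + ℓ * ((i + 1 : ℕ) : ℝ) = x + ℓ + ℓ * i := by push_cast; ring
          rw [this]; exact hv1
        · have : x + ℓ * (((i + 1 : ℕ) : ℝ) + 1) = x + ℓ + ℓ * (i + 1) := by push_cast; ring
          rw [this]; exact hv2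

/-- A compact null set meets few cells of a fine grid. -/
lemma grid {K : Set ℝ} (hK : IsCompact K) (h0 : volume K = 0) {a b ε : ℝ} (hab : a < b)
    (hε : 0 < ε) : ∃ N : ℕ, 0 < N ∧ ∀ S : Finset ℕ,
      (∀ i ∈ S, (K ∩ Ico (a + (b - a) / N * (i : ℕ)) (a + (b - a) / N * (i + 1))).Nonempty) →
      (S.card : ℝ) * ((b - a) / N) < ε := by
  have ht := tendsto_measure_cthickening_of_isCompact (μ := (volume : Measure ℝ)) hK
  rw [h0] at ht
  have he : ∀ᶠ r in 𝓝 (0 : ℝ), volume (Metric.cthickening r K) < ENNReal.ofReal ε :=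
    ht.eventually (Iio_mem_nhds (by simpa using hε))
  obtain ⟨δ, hδ, hδ'⟩ := Metric.eventually_nhds_iff.1 he
  obtain ⟨N, hN⟩ := exists_nat_gt ((b - a) / δ)
  have hba : 0 < b - a := by linarith
  have hN0 : (0 : ℝ) < N := lt_trans (by positivity) hN
  have hN1 : 0 < N := by exact_mod_cast hN0
  have hℓ : 0 < (b - a) / N := by positivity
  have hℓδ : (b - a) / N < δ := by
    rw [div_lt_iff₀ hN0]
    rw [div_lt_iff₀ hδ] at hN
    linarith
  refine ⟨N, hN1, fun S hS => ?_⟩
  set ℓ := (b - a) / N with hℓdef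
  have hsmall := hδ' (y := ℓ) (by rw [Real.dist_eq, sub_zero, abs_of_pos hℓ]; exact hℓδ)
  have hmono : Monotone (fun i : ℕ => a + ℓ * (i : ℝ)) := by
    intro i j hij
    have : (i : ℝ) ≤ j := by exact_mod_cast hij
    have := mul_le_mul_of_nonneg_left this hℓ.le
    simp only
    linarith
  have hdisj := hmono.pairwise_disjoint_on_Ico_succ
  have hsub : (⋃ i ∈ S, Ico (a + ℓ * (i : ℝ)) (a + ℓ * ((i + 1 : ℕ) : ℝ))) ⊆
      Metric.cthickening ℓ K := by
    intro x hx
    simp only [mem_iUnion] at hx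
    obtain ⟨i, hi, hx1, hx2⟩ := hx
    obtain ⟨y, hyK, hy1, hy2⟩ := hS i hi
    refine Metric.mem_cthickening_of_dist_le x y ℓ K hyK ?_
    rw [Real.dist_eq, abs_le]
    push_cast at hx2
    constructor <;> nlinarith
  have hvol : volume (⋃ i ∈ S, Ico (a + ℓ * (i : ℝ)) (a + ℓ * ((i + 1 : ℕ) : ℝ))) =
      ENNReal.ofReal (S.card * ℓ) := by
    rw [measure_biUnion_finset]
    · have : ∀ i ∈ S, volume (Ico (a + ℓ * (i : ℝ)) (a + ℓ * ((i + 1 : ℕ) : ℝ))) =
          ENNReal.ofReal ℓ := by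
        intro i _
        rw [Real.volume_Ico]
        congr 1
        push_cast
        ring
      rw [Finset.sum_congr rfl this, Finset.sum_const, nsmul_eq_mul,
        ENNReal.ofReal_mul (by positivity), ENNReal.ofReal_natCast]
    · intro i _ j _ hij
      exact hdisj hij
    · intro i _
      exact measurableSet_Ico
  have h1 := (measure_mono hsub).trans_lt hsmall
  rw [hvol] at h1
  exact (ENNReal.ofReal_lt_ofReal_iff hε).1 h1

/-- One step can be refined so that a compact null set is covered. -/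
lemma single (hd : Dense H) (hκ : 0 < κ) {K : Set ℝ} (hK : IsCompact K) (h0 : volume K = 0)
    {z w : ℝ × ℝ} (hz : z.2 ∈ H) (hw : w.2 ∈ H) (hr : R κ z w) :
    ∃ L, Path κ H z L w ∧ Cov K z.1 w.1 L := by
  classical
  obtain ⟨a, g⟩ := z
  obtain ⟨b, h⟩ := w
  obtain ⟨hab, hgh, hlt⟩ := hr
  simp only at hab hgh hlt hz hw ⊢
  have hε : 0 < (b - a) - (h - g) / κ := by
    rw [sub_pos, div_lt_iff₀ hκ]
    linarith
  obtain ⟨N, hN, hS⟩ := grid hK h0 hab hε
  set ℓ := (b - a) / N with hℓdef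
  have hN0 : (0 : ℝ) < N := by exact_mod_cast hN
  have hℓ : 0 < ℓ := by
    have : 0 < b - a := by linarith
    positivity
  have hNℓ : ℓ * N = b - a := by rw [hℓdef]; field_simp
  set bad : ℕ → Prop := fun i =>
    (K ∩ Ico (a + ℓ * (i : ℕ)) (a + ℓ * (i + 1))).Nonempty with hbad
  set cs : List Bool := (List.range N).map (fun i => decide (¬ bad i)) with hcs
  have hlen : cs.length = N := by simp [hcs]
  have hcf : cs.count false = ((Finset.range N).filter bad).card := by
    rw [hcs, List.count, List.countP_map, List.countP_eq_length_filter]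
    have : ((Finset.range N).filter bad).card = ((List.range N).filter (fun i => decide (bad i))).length := by
      rfl
    rw [this]
    congr 1
    apply List.filter_congr
    intro i _
    simp
  have hsum := List.count_true_add_count_false cs
  have hcard : ((cs.count false : ℕ) : ℝ) * ℓ < (b - a) - (h - g) / κ := by
    rw [hcf]
    apply hS
    intro i hi
    exact (Finset.mem_filter.1 hi).2
  have hcount : h - g < κ * ℓ * (cs.count true : ℕ) := by
    have h1 : ((cs.count true : ℕ) : ℝ) = N - (cs.count false : ℕ) := by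
      rw [hlen] at hsum
      have : ((cs.count true : ℕ) : ℝ) + (cs.count false : ℕ) = N := by exact_mod_cast hsum
      linarith
    rw [h1]
    have h2 : (h - g) / κ < ℓ * (N - (cs.count false : ℕ)) := by
      rw [mul_sub, hNℓ]; linarith
    rw [div_lt_iff₀ hκ] at h2
    linarith
  obtain ⟨L, hL, hcov⟩ := cells hd hℓ hκ cs a g h hz hw hgh (Or.inl hcount)
  have hend : a + ℓ * (cs.length : ℕ) = b := by rw [hlen, hNℓ]; ring
  rw [hend] at hL
  refine ⟨L, hL, ?_⟩
  intro x hxK hx1 hx2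
  rcases eq_or_lt_of_le hx2 with rfl | hx2
  · exact ⟨x, x, h, hL.right_mem, hL.right_mem, le_refl _, le_refl _⟩
  · set i := ⌊(x - a) / ℓ⌋₊ with hi
    have hq : 0 ≤ (x - a) / ℓ := div_nonneg (by linarith) hℓ.le
    have hi1 : (i : ℝ) ≤ (x - a) / ℓ := Nat.floor_le hq
    have hi2 : (x - a) / ℓ < i + 1 := Nat.lt_floor_add_one _
    rw [le_div_iff₀ hℓ] at hi1
    rw [div_lt_iff₀ hℓ] at hi2
    have hiN : i < N := by
      have : (i : ℝ) * ℓ < N * ℓ := by nlinarith
      exact_mod_cast lt_of_mul_lt_mul_right this hℓ.le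
    have hbi : bad i := ⟨x, hxK, by linarith, by linarith⟩
    have hget : cs[i]? = some false := by
      rw [hcs]
      simp [hiN, hbi]
    obtain ⟨v, hv1, hv2⟩ := hcov i hget
    exact ⟨_, _, v, hv1, hv2, by linarith, by linarith⟩

/-- Refinement of a path. -/
lemma refine_path (hd : Dense H) (hκ : 0 < κ) {K : Set ℝ} (hK : IsCompact K)
    (h0 : volume K = 0) {z w : ℝ × ℝ} {L : List (ℝ × ℝ)} (h : Path κ H z L w) :
    ∃ N, Path κ H z N w ∧ (∀ a ∈ L, a ∈ N) ∧ Cov K z.1 w.1 N := by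
  induction h with
  | nil z hz =>
    refine ⟨[z], Path.nil z hz, fun a ha => ha, ?_⟩
    intro x _ h1 h2
    exact ⟨z.1, z.1, z.2, by simp, by simp, h1, h2⟩
  | cons z z' L w hz hr h ih =>
    obtain ⟨N, hN, hLN, hcov⟩ := ih
    obtain ⟨M, hM, hcovM⟩ := single hd hκ hK h0 hz (h.val z' h.left_mem) hr
    obtain ⟨P, hP, h1, h2⟩ := hM.append hN
    refine ⟨P, hP, fun a ha => ?_, ?_⟩
    · rcases List.mem_cons.1 ha with rfl | ha
      · exact h1 _ hM.left_mem
      · exact h2 _ (hLN _ ha)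
    · intro x hxK hx1 hx2
      rcases le_total x z'.1 with hx | hx
      · obtain ⟨p, q, v, hp, hq, h3, h4⟩ := hcovM x hxK hx1 hx
        exact ⟨p, q, v, h1 _ hp, h1 _ hq, h3, h4⟩
      · obtain ⟨p, q, v, hp, hq, h3, h4⟩ := hcov x hxK hx hx2
        exact ⟨p, q, v, h2 _ hp, h2 _ hq, h3, h4⟩

/-- Passing to the target coordinate. -/
def T (a : ℝ × ℝ) : ℝ × ℝ := (a.1 - a.2, a.2)

/-- Passing back to the source coordinate. -/
def T' (a : ℝ × ℝ) : ℝ × ℝ := (a.1 + a.2, a.2)

lemma R_T (a b : ℝ × ℝ) (h : R (1 / 2) a b) : R 1 (T a) (T b) := by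
  obtain ⟨h1, h2, h3⟩ := h
  refine ⟨?_, h2, ?_⟩ <;> simp only [T] <;> linarith

lemma R_T' (a b : ℝ × ℝ) (h : R 1 a b) : R (1 / 2) (T' a) (T' b) := by
  obtain ⟨h1, h2, h3⟩ := h
  refine ⟨?_, h2, ?_⟩ <;> simp only [T'] <;> linarith

/-- The points of `K` between `a` and `b` are covered in the target coordinate. -/
def CovT (K : Set ℝ) (a b : ℝ) (L : List (ℝ × ℝ)) : Prop :=
  ∀ y ∈ K, a ≤ y → y ≤ b → ∃ p q v, (p, v) ∈ L ∧ (q, v) ∈ L ∧ p - v ≤ y ∧ y ≤ q - v

lemma Cov.mono {K : Set ℝ} {a b : ℝ} {L M : List (ℝ × ℝ)} (h : Cov K a b L)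
    (hLM : ∀ a ∈ L, a ∈ M) : Cov K a b M := by
  intro x hx h1 h2
  obtain ⟨p, q, v, hp, hq, h3⟩ := h x hx h1 h2
  exact ⟨p, q, v, hLM _ hp, hLM _ hq, h3⟩

/-- Both coverings at once. -/
lemma step (hd : Dense H) {K : Set ℝ} (hK : IsCompact K) (h0 : volume K = 0) {z w : ℝ × ℝ}
    {L : List (ℝ × ℝ)} (h : Path (1 / 2) H z L w) :
    ∃ N, Path (1 / 2) H z N w ∧ (∀ a ∈ L, a ∈ N) ∧ Cov K z.1 w.1 N ∧
      CovT K (z.1 - z.2) (w.1 - w.2) N := by
  obtain ⟨M, hM, hLM, hcov⟩ := refine_path hd (by norm_num) hK h0 h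
  have hM1 := hM.map (κ' := 1) T (fun _ => rfl) R_T
  obtain ⟨N, hN, hMN, hcovT⟩ := refine_path hd one_pos hK h0 hM1
  have hN1 := hN.map (κ' := 1 / 2) T' (fun _ => rfl) R_T'
  have hTT : ∀ a, T' (T a) = a := by
    intro a
    simp [T, T']
  rw [hTT, hTT] at hN1
  have hMN' : ∀ a ∈ M, a ∈ N.map T' := by
    intro a ha
    rw [← hTT a]
    exact List.mem_map_of_mem (hMN _ (List.mem_map_of_mem ha))
  refine ⟨N.map T', hN1, fun a ha => hMN' _ (hLM a ha), hcov.mono hMN', ?_⟩
  intro y hy h1 h2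
  obtain ⟨p, q, v, hp, hq, h3, h4⟩ := hcovT y hy h1 h2
  refine ⟨p + v, q + v, v, List.mem_map_of_mem (f := T') hp, List.mem_map_of_mem (f := T') hq,
    by linarith, by linarith⟩

/-- The null case: a dense subgroup covered by countably many compact null sets is not plastic. -/
lemma null_case (H : AddSubgroup ℝ) (hd : Dense (H : Set ℝ)) (K : ℕ → Set ℝ)
    (hK : ∀ n, IsCompact (K n)) (h0 : ∀ n, volume (K n) = 0) (hU : ⋃ n, K n = (H : Set ℝ)) :
    ¬ Plastic H := by
  obtain ⟨b, hbH, hb0, -⟩ := hd.exists_between (show (0 : ℝ) < 1 by norm_num)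
  obtain ⟨g, hgH, hg0, hgb⟩ := hd.exists_between (show (0 : ℝ) < b / 2 by linarith)
  have hbH' : b ∈ H := hbH
  have hgH' : g ∈ H := hgH
  have hinit : Path (1 / 2) (H : Set ℝ) (0, 0) [(0, 0), (b, g)] (b, g) :=
    Path.cons _ _ _ _ H.zero_mem ⟨hb0, hg0.le, by simp only; linarith⟩ (Path.nil _ hgH)
  have hstep : ∀ (n : ℕ) (L : {L : List (ℝ × ℝ) // Path (1 / 2) (H : Set ℝ) (0, 0) L (b, g)}),
      ∃ N : {L : List (ℝ × ℝ) // Path (1 / 2) (H : Set ℝ) (0, 0) L (b, g)},
        (∀ a ∈ L.1, a ∈ N.1) ∧ Cov (K n) 0 b N.1 ∧ CovT (K n) 0 (b - g) N.1 := by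
    intro n L
    obtain ⟨N, h1, h2, h3, h4⟩ := step hd (hK n) (h0 n) L.2
    refine ⟨⟨N, h1⟩, h2, h3, ?_⟩
    simpa using h4
  choose nxt hn1 hn2 hn3 using hstep
  let A : ℕ → {L : List (ℝ × ℝ) // Path (1 / 2) (H : Set ℝ) (0, 0) L (b, g)} := fun n =>
    Nat.rec ⟨_, hinit⟩ (fun n L => nxt n L) n
  have hA : ∀ n, A (n + 1) = nxt n (A n) := fun n => rfl
  have hAmono : ∀ n m, n ≤ m → ∀ a ∈ (A n).1, a ∈ (A m).1 := by
    intro n m hnm
    induction hnm with
    | refl => exact fun a ha => ha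
    | step _ ih =>
      intro a ha
      rw [Nat.succ_eq_add_one, hA]
      exact hn1 _ _ _ (ih a ha)
  -- the whole graph
  let P : ℝ × ℝ → Prop := fun a => (∃ n, a ∈ (A n).1) ∨ (a.1 ≤ 0 ∧ a.2 = 0) ∨ (b ≤ a.1 ∧ a.2 = g)
  have hPH : ∀ a, P a → a.2 ∈ H := by
    rintro a (⟨n, hn⟩ | ⟨-, h⟩ | ⟨-, h⟩)
    · exact (A n).2.val a hn
    · rw [h]; exact H.zero_mem
    · rw [h]; exact hgH'
  have hin : ∀ n, ∀ a ∈ (A n).1, 0 ≤ a.1 ∧ a.1 ≤ b ∧ 0 ≤ a.2 ∧ a.2 ≤ g ∧ a.2 ≤ 1 / 2 * a.1 ∧
      g - a.2 ≤ 1 / 2 * (b - a.1) := by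
    intro n a ha
    have h1 : 0 ≤ a.1 ∧ 0 ≤ a.2 ∧ a.2 ≤ 1 / 2 * a.1 := by
      rcases (A n).2.left_rel a ha with h | ⟨h1, h2, h3⟩
      · rw [h]; simp
      · simp only at h1 h2 h3
        exact ⟨h1.le, h2, by linarith⟩
    have h2 : a.1 ≤ b ∧ a.2 ≤ g ∧ g - a.2 ≤ 1 / 2 * (b - a.1) := by
      rcases (A n).2.right_rel a ha with h | ⟨h1, h2, h3⟩
      · rw [h]; simp
      · simp only at h1 h2 h3
        exact ⟨h1.le, h2, by linarith⟩
    exact ⟨h1.1, h2.1, h1.2.1, h2.2.1, h1.2.2, h2.2.2⟩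
  have hW : ∀ a c, P a → P c → a.1 ≤ c.1 →
      0 ≤ c.2 - a.2 ∧ c.2 - a.2 ≤ 1 / 2 * (c.1 - a.1) := by
    rintro a c (⟨n, hn⟩ | ⟨ha1, ha2⟩ | ⟨ha1, ha2⟩) (⟨m, hm⟩ | ⟨hc1, hc2⟩ | ⟨hc1, hc2⟩) hac
    · have h1 := hAmono n (max n m) (le_max_left _ _) a hn
      have h2 := hAmono m (max n m) (le_max_right _ _) c hm
      rcases (A (max n m)).2.total a h1 c h2 with h | ⟨h3, h4, h5⟩ | ⟨h3, h4, h5⟩
      · rw [h]; simp
      · exact ⟨by linarith, by linarith⟩
      · exact absurd hac (not_le.2 h3)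
    · have := hin n a hn
      constructor <;> linarith [this.1, this.2.1, this.2.2.1, this.2.2.2.1, this.2.2.2.2.1]
    · have := hin n a hn
      constructor <;> linarith [this.1, this.2.1, this.2.2.1, this.2.2.2.1, this.2.2.2.2.2]
    · have := hin m c hm
      constructor <;> linarith [this.1, this.2.1, this.2.2.1, this.2.2.2.1, this.2.2.2.2.1]
    · constructor <;> linarith
    · constructor <;> linarith
    · have := hin m c hm
      constructor <;> linarith [this.1, this.2.1, this.2.2.1, this.2.2.2.1, this.2.2.2.2.2]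
    · constructor <;> linarith
    · constructor <;> linarith
  let D : ℝ → ℝ → Prop := fun x v => ∃ p q, P (p, v) ∧ P (q, v) ∧ p ≤ x ∧ x ≤ q
  have hD : ∀ x y v w, D x v → D y w → x ≤ y → 0 ≤ w - v ∧ w - v ≤ 1 / 2 * (y - x) := by
    rintro x y v w ⟨p, q, hp, hq, hpx, hxq⟩ ⟨p', q', hp', hq', hpy, hyq⟩ hxy
    rcases le_total q p' with h | h
    · have := hW _ _ hq hp' h
      simp only at this
      exact ⟨this.1, by linarith [this.2]⟩
    · have h1 := hW _ _ hp' hq h
      have h2 := hW _ _ hp hq' (show p ≤ q' by linarith)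
      simp only at h1 h2
      exact ⟨h2.1, by linarith [h1.1]⟩
  have hex : ∀ x : ℝ, x ∈ H → ∃ v ∈ H, D x v := by
    intro x hx
    rcases le_total x 0 with h | h
    · exact ⟨0, H.zero_mem, x, x, Or.inr (Or.inl ⟨h, rfl⟩), Or.inr (Or.inl ⟨h, rfl⟩), le_refl _,
        le_refl _⟩
    rcases le_total b x with h' | h'
    · exact ⟨g, hgH', x, x, Or.inr (Or.inr ⟨h', rfl⟩), Or.inr (Or.inr ⟨h', rfl⟩), le_refl _,
        le_refl _⟩
    have hx' : x ∈ ⋃ n, K n := by rw [hU]; exact hx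
    obtain ⟨n, hn⟩ := mem_iUnion.1 hx'
    obtain ⟨p, q, v, hp, hq, h1, h2⟩ := hn2 n (A n) x hn h h'
    have hp' : P (p, v) := Or.inl ⟨n + 1, by rw [hA]; exact hp⟩
    have hq' : P (q, v) := Or.inl ⟨n + 1, by rw [hA]; exact hq⟩
    exact ⟨v, hPH _ hp', p, q, hp', hq', h1, h2⟩
  have hsur : ∀ y : ℝ, y ∈ H → ∃ x ∈ H, ∃ v, D x v ∧ x - v = y := by
    intro y hy
    rcases le_total y 0 with h | h
    · exact ⟨y, hy, 0, ⟨y, y, Or.inr (Or.inl ⟨h, rfl⟩), Or.inr (Or.inl ⟨h, rfl⟩), le_refl _,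
        le_refl _⟩, by ring⟩
    rcases le_total (b - g) y with h' | h'
    · have hby : b ≤ y + g := by linarith
      exact ⟨y + g, H.add_mem hy hgH', g, ⟨y + g, y + g, Or.inr (Or.inr ⟨hby, rfl⟩),
        Or.inr (Or.inr ⟨hby, rfl⟩), le_refl _, le_refl _⟩, by ring⟩
    have hy' : y ∈ ⋃ n, K n := by rw [hU]; exact hy
    obtain ⟨n, hn⟩ := mem_iUnion.1 hy'
    obtain ⟨p, q, v, hp, hq, h1, h2⟩ := hn3 n (A n) y hn h h'
    have hp' : P (p, v) := Or.inl ⟨n + 1, by rw [hA]; exact hp⟩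
    have hq' : P (q, v) := Or.inl ⟨n + 1, by rw [hA]; exact hq⟩
    exact ⟨y + v, H.add_mem hy (hPH _ hp'), v, ⟨p, q, hp', hq', by linarith, by linarith⟩,
      by ring⟩
  have hex' : ∀ x : H, ∃ v : ℝ, v ∈ H ∧ D x v := fun x => hex x x.2
  choose V hVH hVD using hex'
  intro hpl
  have hmain := hpl (fun x => ⟨(x : ℝ) - V x, H.sub_mem x.2 (hVH x)⟩) ?_ ?_
  · -- compare `0` and `b`
    have h1 : V ⟨0, H.zero_mem⟩ = 0 := by
      have ha : D 0 0 := ⟨0, 0, Or.inr (Or.inl ⟨le_refl _, rfl⟩), Or.inr (Or.inl ⟨le_refl _, rfl⟩),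
        le_refl _, le_refl _⟩
      have h2 := hD _ _ _ _ (hVD ⟨0, H.zero_mem⟩) ha (le_refl _)
      simp only at h2
      linarith [h2.1, h2.2]
    have h2 : V ⟨b, hbH'⟩ = g := by
      have ha : D b g := ⟨b, b, Or.inr (Or.inr ⟨le_refl _, rfl⟩), Or.inr (Or.inr ⟨le_refl _, rfl⟩),
        le_refl _, le_refl _⟩
      have h2 := hD _ _ _ _ (hVD ⟨b, hbH'⟩) ha (le_refl _)
      simp only at h2
      linarith [h2.1, h2.2]
    have h3 := hmain ⟨0, H.zero_mem⟩ ⟨b, hbH'⟩
    rw [Subtype.dist_eq, Subtype.dist_eq] at h3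
    simp only [h1, h2, Real.dist_eq] at h3
    rw [abs_of_neg (by linarith), abs_of_neg (by linarith)] at h3
    linarith
  · constructor
    · intro x y hxy
      have hxy' : (x : ℝ) - V x = y - V y := congrArg Subtype.val hxy
      apply Subtype.ext
      rcases le_total (x : ℝ) y with h | h
      · have := hD _ _ _ _ (hVD x) (hVD y) h
        linarith [this.1, this.2]
      · have := hD _ _ _ _ (hVD y) (hVD x) h
        linarith [this.1, this.2]
    · rintro ⟨y, hy⟩
      obtain ⟨x, hx, v, hv, hxv⟩ := hsur y hy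
      refine ⟨⟨x, hx⟩, Subtype.ext ?_⟩
      have h2 := hD _ _ _ _ (hVD ⟨x, hx⟩) hv (le_refl _)
      simp only at h2 ⊢
      linarith [h2.1, h2.2]
  · intro x y
    rw [Subtype.dist_eq, Subtype.dist_eq]
    simp only [Real.dist_eq]
    rcases le_total (x : ℝ) y with h | h
    · have := hD _ _ _ _ (hVD x) (hVD y) h
      rw [abs_of_nonpos (show (x : ℝ) - y ≤ 0 by linarith), abs_le]
      constructor <;> linarith [this.1, this.2]
    · have := hD _ _ _ _ (hVD y) (hVD x) h
      rw [abs_of_nonneg (show 0 ≤ (x : ℝ) - y by linarith), abs_le]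
      constructor <;> linarith [this.1, this.2]

/-- The whole line is not plastic. -/
lemma top_case (H : AddSubgroup ℝ) (h : ∀ x : ℝ, x ∈ H) : ¬ Plastic H := by
  intro hpl
  have hmain := hpl (fun x => ⟨(x : ℝ) / 2, h _⟩) ?_ ?_
  · have h3 := hmain ⟨0, h _⟩ ⟨1, h _⟩
    rw [Subtype.dist_eq, Subtype.dist_eq] at h3
    simp only [Real.dist_eq] at h3
    norm_num at h3
  · constructor
    · intro x y hxy
      have hxy' : (x : ℝ) / 2 = y / 2 := congrArg Subtype.val hxy
      apply Subtype.ext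
      linarith
    · rintro ⟨y, hy⟩
      refine ⟨⟨2 * y, h _⟩, Subtype.ext ?_⟩
      simp only
      ring
  · intro x y
    rw [Subtype.dist_eq, Subtype.dist_eq]
    simp only [Real.dist_eq]
    have : (x : ℝ) / 2 - y / 2 = (1 / 2) * (x - y) := by ring
    rw [this, abs_mul, abs_of_pos (show (0 : ℝ) < 1 / 2 by norm_num)]
    linarith [abs_nonneg ((x : ℝ) - y)]

/-- A subgroup containing a measurable set of positive measure is everything. -/
lemma all_mem (H : AddSubgroup ℝ) {E : Set ℝ} (hE : IsCompact E) (hEH : E ⊆ H)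
    (hpos : volume E ≠ 0) : ∀ x : ℝ, x ∈ H := by
  have h1 := Measure.sub_mem_nhds_zero_of_addHaar_pos_ne_top (volume : Measure ℝ) E
    hE.measurableSet (pos_iff_ne_zero.2 hpos) hE.measure_lt_top.ne
  have h2 : ((H : Set ℝ)) ∈ 𝓝 (0 : ℝ) := by
    refine mem_of_superset h1 ?_
    rintro _ ⟨x, hx, y, hy, rfl⟩
    exact H.sub_mem (hEH hx) (hEH hy)
  intro x
  have ht : Tendsto (fun n : ℕ => x / (n + 1 : ℝ)) atTop (𝓝 0) :=
    tendsto_const_nhds.div_atTop
      (tendsto_atTop_add_const_right _ _ tendsto_natCast_atTop_atTop)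
  obtain ⟨n, hn⟩ := (ht.eventually h2).exists
  have h3 : (n + 1 : ℕ) • (x / (n + 1 : ℝ)) ∈ H := H.nsmul_mem hn _
  have h4 : (n + 1 : ℕ) • (x / (n + 1 : ℝ)) = x := by
    rw [nsmul_eq_mul]
    push_cast
    field_simp
  rwa [h4] at h3

/-- No dense sigma-compact subgroup of the real line is plastic. -/
theorem no_plastic (H : AddSubgroup ℝ) (hd : Dense (H : Set ℝ))
    (hs : IsSigmaCompact (H : Set ℝ)) : ¬ Plastic H := by
  obtain ⟨K, hK, hU⟩ := hs
  by_cases h : ∀ n, volume (K n) = 0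
  · exact null_case H hd K hK h hU
  · push Not at h
    obtain ⟨n, hn⟩ := h
    exact top_case H (all_mem H (hK n) (by rw [← hU]; exact subset_iUnion _ _) hn)

/-- The real line is strictly convex. -/
lemma real_strict : StrictlyConvexSpace ℝ := by
  intro x y a b ha hb hab
  rw [Real.dist_eq] at hab
  rcases le_total x y with h | h
  · rw [abs_of_nonpos (by linarith)] at hab
    refine ⟨x + a, ⟨?_, ?_⟩, ?_⟩
    · rw [Real.dist_eq, show x - (x + a) = -a by ring, abs_neg, abs_of_pos ha]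
    · rw [Real.dist_eq, show x + a - y = -b by linarith, abs_neg, abs_of_pos hb]
    · rintro z ⟨h1, h2⟩
      rw [Real.dist_eq] at h1 h2
      rcases abs_cases (x - z) with ⟨h3, h4⟩ | ⟨h3, h4⟩ <;>
      rcases abs_cases (z - y) with ⟨h5, h6⟩ | ⟨h5, h6⟩ <;> linarith
  · rw [abs_of_nonneg (by linarith)] at hab
    refine ⟨x - a, ⟨?_, ?_⟩, ?_⟩
    · rw [Real.dist_eq, show x - (x - a) = a by ring, abs_of_pos ha]
    · rw [Real.dist_eq, show x - a - y = b by linarith, abs_of_pos hb]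
    · rintro z ⟨h1, h2⟩
      rw [Real.dist_eq] at h1 h2
      rcases abs_cases (x - z) with ⟨h3, h4⟩ | ⟨h3, h4⟩ <;>
      rcases abs_cases (z - y) with ⟨h5, h6⟩ | ⟨h5, h6⟩ <;> linarith

/-- Q1 and Q2 both have a negative answer: the real line, which is a separable strictly convex
metric abelian group, has no subgroup that is dense, sigma-compact and plastic. -/
theorem result :
    (¬ ∀ (G : Type) [AddCommGroup G] [MetricSpace G],
      (∀ x y z : G, dist (x + z) (y + z) = dist x y) →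
      TopologicalSpace.SeparableSpace G → StrictlyConvexSpace G →
      ∃ H : AddSubgroup G, Dense (H : Set G) ∧ IsSigmaCompact (H : Set G) ∧ Plastic H) ∧
    (∀ H : AddSubgroup ℝ, Dense (H : Set ℝ) → IsSigmaCompact (H : Set ℝ) →
      ∃ f : H → H, Function.Bijective f ∧ (∀ x y, dist (f x) (f y) ≤ dist x y) ∧
        ¬ ∀ x y, dist (f x) (f y) = dist x y) := by
  refine ⟨fun h => ?_, fun H hd hs => ?_⟩
  · obtain ⟨H, hd, hs, hp⟩ := h ℝ (fun x y z => dist_add_right x y z) inferInstance real_strict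
    exact no_plastic H hd hs hp
  · have := no_plastic H hd hs
    unfold Plastic at this
    push Not at this
    obtain ⟨f, h1, h2, h3⟩ := this
    refine ⟨f, h1, h2, ?_⟩
    push Not
    exact h3

end Pool.Agent.Results.MP_fc2771_gt.NoSigmaCompact
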